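import Pool.Agent.N162.GP.Stm2
import Pool.Agent.N619.GP.TRF
import Pool.Agent.Y692.NT.Tr
import Pool.Agent.N383.GP.GL

/-!
# Project GP (helper162), part TNF (helper401): the traces of the regular forms of lower degree
-/

set_option autoImplicit false
set_option linter.all false

open FF Pool.Agent.W603.LV Pool.Agent.Y184.NT Pool.Agent.N162.BC IntermediateField MvPolynomial
open Pool.Agent.W602.GT Pool.Agent.W619.PQ Pool.Agent.Y172

namespace Pool.Agent.N401.GP

section

variable {L K' : Type} [Field L] [Algebra ℂ L] [Field K'] [Algebra ℂ K'] [Algebra L K']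
  [IsScalarTower ℂ L K'] [FiniteDimensional L K'] [Algebra.EssFiniteType ℂ L]
  [Algebra.EssFiniteType ℂ K'] {w : ℕ}

/-- the lift of the transversal field of a local frame has a mild pole -/
theorem lift_mild (hw : Algebra.trdeg ℂ L = w) {P : Place ℂ L} {Q : Place ℂ K'} {e : ℕ}
    (h : Over Q P e) (hP : Divisorial w P) {z : Fin w → L} {E : Fin w → Derivation ℂ L L}
    {i0 : Fin w} (hl : Loc P z E i0) {E' : Fin w → Derivation ℂ K' K'}
    (hE' : ∀ i f, E' i (algebraMap L K' f) = algebraMap L K' (E i f)) (k : Fin w) :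
    ∃ (c : K') (G : Derivation ℂ K' K'), E' k = c • G ∧ DerReg Q G ∧
      Ge Q (if k = i0 then 1 - (e : ℤ) else 0) c := by
  classical
  have hlog : ∀ i, DerLog Q (algebraMap L K' (lc z i0 i) • E' i) := fun i =>
    lift_log h (hl.log i) fun f => by
      change algebraMap L K' (lc z i0 i) * E' i (algebraMap L K' f) =
        algebraMap L K' (lc z i0 i * E i f)
      rw [hE', map_mul]
  by_cases hk : k = i0
  swap
  · refine ⟨1, E' k, by rw [one_smul], ?_, ?_⟩
    · intro f hf
      have h1 := hlog k
      have h2 : lc z i0 k = 1 := by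
        unfold lc
        rw [if_neg hk]
      rw [h2, map_one, one_smul] at h1
      exact DerLog.ge h1 hf
    · rw [if_neg hk]
      exact Ge.one
  have hK' : Algebra.trdeg ℂ K' = w := trdeg_up (K := L) hw
  have hQ : Divisorial w Q := divisorial_up h hP
  obtain ⟨x, F, j0, hx⟩ := exists_loc hK' hQ
  obtain ⟨A, hA⟩ : ∃ A : Matrix (Fin w) (Fin w) K', A = Matrix.of fun j k =>
    F j (algebraMap L K' (z k)) := ⟨_, rfl⟩
  obtain ⟨B, hB⟩ : ∃ B : Matrix (Fin w) (Fin w) K', B = Matrix.of fun k j => E' k (x j) :=
    ⟨_, rfl⟩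
  have hexp : ∀ k f, E' k f = ∑ j, E' k (x j) * F j f := by
    intro k f
    have h1 := Pool.Agent.W73.PG.PULL.expand x hx.bas F hx.dual (E' k)
    conv_lhs => rw [← h1]
    rw [Pool.Agent.W73.PG.PULL.sum_app]
    rfl
  have hBA : B * A = 1 := by
    ext k l
    rw [Matrix.mul_apply, Matrix.one_apply, hA, hB]
    change ∑ j, E' k (x j) * F j (algebraMap L K' (z l)) = _
    rw [← hexp]
    exact lift_dual hl.dual hE' k l
  have hAB : A * B = 1 := mul_eq_one_comm.1 hBA
  have hdet : B.det * A.det = 1 := by rw [← Matrix.det_mul, hBA, Matrix.det_one]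
  have hadj : A.adjugate = A.det • B := by
    calc A.adjugate = A.adjugate * (A * B) := by rw [hAB, mul_one]
      _ = (A.adjugate * A) * B := by rw [mul_assoc]
      _ = A.det • B := by rw [Matrix.adjugate_mul, smul_mul_assoc, one_mul]
  have hAr : ∀ i j, Ge Q 0 (A i j) := by
    intro i j
    rw [hA]
    exact hx.pres i _ (h.reg.2 (hl.reg j))
  have hadjr : ∀ i j, Ge Q 0 (A.adjugate i j) := by
    intro i j
    rw [Matrix.adjugate_apply]
    refine Pool.Agent.W619.PQ.ge_det Q _ fun a b => ?_
    rw [Matrix.updateRow_apply]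
    split_ifs
    · rw [Pi.single_apply]
      split_ifs
      · exact Ge.one
      · exact Ge.zero
    · exact hAr a b
  have hs0 : algebraMap L K' (z i0) ≠ 0 := by
    rw [Ne, map_eq_zero]
    exact hl.ne
  have hs : Q.ord (algebraMap L K' (z i0)) = e := by
    rw [h.2, hl.unif, mul_one]
  have hBdet : Ge Q (1 - (e : ℤ)) B.det := by
    have h2 : Ge Q 1 (Matrix.of fun i j =>
        (algebraMap L K' (lc z i0 i) • E' i) (x j) : Matrix (Fin w) (Fin w) K').det := by
      rw [← Matrix.det_transpose]
      refine Pool.Agent.W603.LV.ge_det Q _ 1 (fun a _ => if a = j0 then 1 else 0)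
        (fun a b => ?_) fun σ => ?_
      · change Ge Q (if a = j0 then 1 else 0) ((algebraMap L K' (lc z i0 b) • E' b) (x a))
        split_ifs with ha
        · rw [ha]
          exact DerLog.ge (hlog b) (Or.inr (by rw [hx.unif]))
        · exact DerLog.ge (hlog b) (hx.reg a)
      · have h3 : ∑ i, (if σ i = j0 then (1 : ℤ) else 0) = 1 := by
          rw [Finset.sum_eq_single (σ.symm j0)]
          · simp
          · intro i _ hi
            rw [if_neg]
            intro h
            exact hi (by rw [← h]; simp)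
          · intro h
            exact absurd (Finset.mem_univ _) h
        exact h3.ge
    have h3 : (Matrix.of fun i j =>
        (algebraMap L K' (lc z i0 i) • E' i) (x j) : Matrix (Fin w) (Fin w) K').det =
        algebraMap L K' (z i0) * B.det := by
      have h4 := Matrix.det_mul_column (fun i => algebraMap L K' (lc z i0 i)) B
      rw [← map_prod, prod_lc, hB] at h4
      rw [hB]
      exact h4
    rw [h3] at h2
    refine Ge.of_mul' hs0 hs ?_
    rwa [sub_add_cancel]
  have hcoef : ∀ j, Ge Q (1 - (e : ℤ)) (E' k (x j)) := by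
    intro j
    have h1 : E' k (x j) = B.det * A.adjugate k j := by
      rw [hadj, Matrix.smul_apply, smul_eq_mul, ← mul_assoc, hdet, one_mul, hB]
      rfl
    rw [h1]
    simpa using hBdet.mul (hadjr k j)
  obtain ⟨c, hc⟩ : ∃ c : K', c = x j0 / algebraMap L K' (z i0) := ⟨_, rfl⟩
  have hx0 : x j0 ≠ 0 := hx.ne
  have hc0 : c ≠ 0 := by
    rw [hc]
    exact div_ne_zero hx0 hs0
  have hco : Q.ord c = 1 - e := by
    rw [hc, Q.ord_div hx0 hs0, hx.unif, hs]
  refine ⟨c, c⁻¹ • E' k, ?_, ?_, ?_⟩
  · rw [smul_smul, mul_inv_cancel₀ hc0, one_smul]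
  · intro f hf
    change Ge Q 0 (c⁻¹ * E' k f)
    rw [hexp, Finset.mul_sum]
    refine Ge.sum _ _ fun j _ => ?_
    have h1 : Ge Q (-(1 - (e : ℤ))) c⁻¹ := Or.inr (by rw [Q.ord_inv, hco])
    have h2 : Ge Q 0 (F j f) := hx.pres j f hf
    have h3 := h1.mul ((hcoef j).mul h2)
    rwa [add_zero, neg_add_cancel] at h3
  · rw [if_pos hk]
    exact Or.inr hco.ge

end

section

variable {K K' L : Type} [Field K] [Algebra ℂ K] [Algebra.EssFiniteType ℂ K] [Field K']
  [Algebra ℂ K'] [Algebra K K'] [IsScalarTower ℂ K K'] [Field L] [Algebra ℂ L] [Algebra L K']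
  [IsScalarTower ℂ L K'] [FiniteDimensional L K'] [Algebra.EssFiniteType ℂ L]
  [Algebra.EssFiniteType ℂ K'] {n w : ℕ}

/-- the values of pull-backs of regular forms on parts of the lifted frames -/
theorem mild_det (hp : Pool.Agent.Y184.NT.StPull) (hn : Algebra.trdeg ℂ K = n)
    (hw : Algebra.trdeg ℂ L = w) {y : Fin n → K} (hy : IsTranscendenceBasis ℂ y)
    {ε : Fin n → Derivation ℂ K K} (hε : ∀ i j, ε i (y j) = if i = j then 1 else 0)
    {ω : (Fin n → Derivation ℂ K K) → K} (hω : GlobalForm n ω)
    {P : Place ℂ L} {Q : Place ℂ K'} {e : ℕ}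
    (h : Over Q P e) (hP : Divisorial w P) {z : Fin w → L} {E : Fin w → Derivation ℂ L L}
    {i0 : Fin w} (hl : Loc P z E i0) {E' : Fin w → Derivation ℂ K' K'}
    (hE' : ∀ i f, E' i (algebraMap L K' f) = algebraMap L K' (E i f)) (κ : Fin n → Fin w)
    (hκ : Function.Injective κ) :
    Ge Q (1 - (e : ℤ)) ((Matrix.of fun i j => E' (κ i) (algebraMap K K' (y j)) :
      Matrix (Fin n) (Fin n) K').det * algebraMap K K' (ω ε)) := by
  classical
  choose c G h1 h2 h3 using fun i => lift_mild hw h hP hl hE' i
  have hK' : Algebra.trdeg ℂ K' = w := trdeg_up (K := L) hw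
  have hQ : Divisorial w Q := divisorial_up h hP
  have h4 : (Matrix.of fun i j => E' (κ i) (algebraMap K K' (y j)) :
      Matrix (Fin n) (Fin n) K').det = (∏ i, c (κ i)) *
        (Matrix.of fun i j => G (κ i) (algebraMap K K' (y j)) :
          Matrix (Fin n) (Fin n) K').det := by
    rw [← Matrix.det_mul_column]
    congr 1
    ext i j
    rw [Matrix.of_apply, Matrix.of_apply, Matrix.of_apply, h1 (κ i)]
    rfl
  have h5 : Ge Q 0 ((Matrix.of fun i j => G (κ i) (algebraMap K K' (y j)) :
      Matrix (Fin n) (Fin n) K').det * algebraMap K K' (ω ε)) :=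
    hp K K' n w hn hK' y hy ε hε ω hω.1 hω.2 Q hQ (fun i => G (κ i)) fun i => h2 (κ i)
  have h6 : Ge Q (1 - (e : ℤ)) (∏ i, c (κ i)) := by
    have h7 := Ge.prod (P := Q) Finset.univ (fun i => c (κ i))
      (fun i => if κ i = i0 then 1 - (e : ℤ) else 0) fun i _ => h3 (κ i)
    refine h7.mono ?_
    have he : (1 : ℤ) ≤ e := by exact_mod_cast h.1
    by_cases hex : ∃ i1, κ i1 = i0
    · obtain ⟨i1, hi1⟩ := hex
      rw [Finset.sum_eq_single i1]
      · rw [if_pos hi1]
      · intro i _ hi
        rw [if_neg]
        intro h8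
        exact hi (hκ (h8.trans hi1.symm))
      · intro h8
        exact absurd (Finset.mem_univ _) h8
    · push Not at hex
      rw [Finset.sum_eq_zero fun i _ => if_neg (hex i)]
      omega
  rw [h4, mul_assoc]
  simpa using h6.mul h5

end

/-- GP/TNF -/
theorem tnf_ (hp : Pool.Agent.Y184.NT.StPull) : Pool.Agent.N162.GP.StTNF := by
  classical
  intro n w L K K' _ _ _ _ _ _ _ _ _ _ _ _ _ hn hw ω₀ hω₀ hne
  have hess : Algebra.EssFiniteType ℂ K' := Algebra.EssFiniteType.comp ℂ L K'
  have hK' : Algebra.trdeg ℂ K' = w := trdeg_up (K := L) hw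
  obtain ⟨l, E0, hl, hE0⟩ := exists_crd (k := ℂ) (K := L) hw
  choose E' hE' using fun i : Fin w => exists_lift (k := ℂ) (K := L) (L := K') hw (E0 i)
  have hl2 : IsTranscendenceBasis ℂ (fun j => algebraMap L K' (l j)) := hl.algebraMap_comp
  have hE2 := fun i j => lift_dual (L := K') hE0 hE' i j
  obtain ⟨y, ε, hy, hε⟩ := exists_crd (k := ℂ) (K := K) hn
  have hyi : AlgebraicIndependent ℂ (fun j => algebraMap K K' (y j)) :=
    hy.1.map' (f := IsScalarTower.toAlgHom ℂ K K') (algebraMap K K').injective
  choose θ hθ using fun j => Pool.Agent.N383.GP.exists_dual hyi j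
  have hω0 : ω₀ ε ≠ 0 := by
    intro h0
    obtain ⟨D, hD⟩ := hne
    apply hD
    rw [pluri_coord hy hε hω₀ D, h0, mul_zero]
  -- the functionals
  obtain ⟨Φ, hΦ⟩ : ∃ Φ : Derivation ℂ L L →ₗ[L] (Fin n → K'), ∀ D j, Φ D j =
      ∑ k, algebraMap L K' (D (l k)) * E' k (algebraMap K K' (y j)) := by
    refine ⟨{ toFun := fun D j => ∑ k, algebraMap L K' (D (l k)) * E' k (algebraMap K K' (y j))
              map_add' := fun D1 D2 => ?_
              map_smul' := fun a D => ?_ }, fun D j => rfl⟩
    · funext j
      change ∑ k, algebraMap L K' (D1 (l k) + D2 (l k)) * _ = ∑ k, _ + ∑ k, _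
      rw [← Finset.sum_add_distrib]
      refine Finset.sum_congr rfl fun k _ => ?_
      rw [map_add, add_mul]
    · funext j
      change ∑ k, algebraMap L K' (a * D (l k)) * _ = a • ∑ k, _
      rw [Algebra.smul_def, Finset.mul_sum]
      refine Finset.sum_congr rfl fun k _ => ?_
      rw [map_mul, mul_assoc]
  have hΦl : ∀ (D : Derivation ℂ L L) (D' : Derivation ℂ K' K'),
      (∀ f, D' (algebraMap L K' f) = algebraMap L K' (D f)) → ∀ j,
      Φ D j = D' (algebraMap K K' (y j)) := by
    intro D D' hD j
    have h1 := Pool.Agent.W73.PG.PULL.expand _ hl2 E' hE2 D'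
    rw [hΦ]
    conv_rhs => rw [← h1]
    rw [Pool.Agent.W73.PG.PULL.sum_app]
    refine Finset.sum_congr rfl fun k _ => ?_
    rw [← hD]
    rfl
  -- the choice of the vector fields
  obtain ⟨κ₀, hκ₀⟩ : ∃ κ₀ : Fin n → Fin w, (Matrix.of fun i j =>
      E' (κ₀ i) (algebraMap K K' (y j)) : Matrix (Fin n) (Fin n) K').det ≠ 0 := by
    by_contra hcon
    push Not at hcon
    have h1 : (Matrix.of fun i j => θ i (algebraMap K K' (y j)) :
        Matrix (Fin n) (Fin n) K') = 1 := by
      ext i j
      rw [Matrix.of_apply, hθ, Matrix.one_apply]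
      by_cases hij : i = j
      · rw [if_pos hij, if_pos hij.symm]
      · rw [if_neg hij, if_neg (Ne.symm hij)]
    have h2 : (Matrix.of fun i j => θ i (algebraMap K K' (y j)) :
        Matrix (Fin n) (Fin n) K') = fun i => ∑ k, θ i (algebraMap L K' (l k)) •
          (fun j => E' k (algebraMap K K' (y j))) := by
      funext i j
      rw [Matrix.of_apply, Finset.sum_apply]
      have h3 := Pool.Agent.W73.PG.PULL.expand _ hl2 E' hE2 (θ i)
      conv_lhs => rw [← h3]
      rw [Pool.Agent.W73.PG.PULL.sum_app]
      rfl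
    have h3 : (Matrix.detRowAlternating (R := K') (n := Fin n)).toMultilinearMap
        (fun i => ∑ k, θ i (algebraMap L K' (l k)) •
          (fun j => E' k (algebraMap K K' (y j)))) = 0 := by
      rw [MultilinearMap.map_sum]
      refine Finset.sum_eq_zero fun κ _ => ?_
      rw [MultilinearMap.map_smul_univ]
      have h4 := hcon κ
      have h5 : (Matrix.detRowAlternating (R := K') (n := Fin n)).toMultilinearMap
        (fun i j => E' (κ i) (algebraMap K K' (y j))) = 0 := h4
      rw [h5, smul_zero]
    have h4 : (Matrix.of fun i j => θ i (algebraMap K K' (y j)) :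
        Matrix (Fin n) (Fin n) K').det = 0 := by
      rw [h2]
      exact h3
    rw [h1, Matrix.det_one] at h4
    exact one_ne_zero h4
  refine ⟨(Matrix.of fun i j => E' (κ₀ i) (algebraMap K K' (y j))).det * algebraMap K K' (ω₀ ε),
    fun i => E0 (κ₀ i), ?_, ?_, ?_⟩
  · refine mul_ne_zero hκ₀ ?_
    rwa [Ne, map_eq_zero]
  · refine mul_mem (Pool.Agent.N619.GP.det_mem _ _ fun i j => ?_) ?_
    · rw [Matrix.of_apply]
      exact Pool.Agent.N619.GP.lift_mem hw hl hE0 hE' _ _ _
        (IntermediateField.subset_adjoin _ _ ⟨y j, rfl⟩)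
    · exact IntermediateField.subset_adjoin _ _ ⟨ω₀ ε, rfl⟩
  · intro b hb
    obtain ⟨g0, hg0⟩ : ∃ g0 : K', g0 = algebraMap K K' (b * ω₀ ε) := ⟨_, rfl⟩
    obtain ⟨η, hη⟩ : ∃ η : AlternatingMap L (Derivation ℂ L L) L (Fin n), ∀ D,
        η D = Algebra.trace L K' ((Matrix.of fun i => Φ (D i)).det * g0) := by
      refine ⟨{ toFun := fun D => Algebra.trace L K' ((Matrix.of fun i => Φ (D i)).det * g0)
                map_update_add' := ?_
                map_update_smul' := ?_
                map_eq_zero_of_eq' := ?_ }, fun D => rfl⟩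
      · intro hdec D i a c
        have hd : hdec = instDecidableEqFin n := Subsingleton.elim _ _
        subst hd
        rw [← map_add, ← add_mul]
        have h1 : ∀ x, (Matrix.of fun k => Φ (Function.update D i x k) :
            Matrix (Fin n) (Fin n) K') =
            Matrix.updateRow (Matrix.of fun k => Φ (D k)) i (Φ x) := by
          intro x
          funext k
          change Φ (Function.update D i x k) = Function.update (fun k => Φ (D k)) i (Φ x) k
          exact Function.apply_update (fun _ => Φ) D i x k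
        rw [h1, h1, h1, map_add, Matrix.det_updateRow_add]
      · intro hdec D i a x
        have hd : hdec = instDecidableEqFin n := Subsingleton.elim _ _
        subst hd
        have h1 : ∀ x, (Matrix.of fun k => Φ (Function.update D i x k) :
            Matrix (Fin n) (Fin n) K') =
            Matrix.updateRow (Matrix.of fun k => Φ (D k)) i (Φ x) := by
          intro x
          funext k
          change Φ (Function.update D i x k) = Function.update (fun k => Φ (D k)) i (Φ x) k
          exact Function.apply_update (fun _ => Φ) D i x k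
        have h2 : a • Φ x = algebraMap L K' a • Φ x := by
          funext j
          rw [Pi.smul_apply, Pi.smul_apply, Algebra.smul_def, smul_eq_mul]
        rw [h1, h1, map_smul, h2, Matrix.det_updateRow_smul, ← map_smul, mul_assoc,
          Algebra.smul_def]
      · intro D i j hij hne'
        have h1 : (Matrix.of fun k => Φ (D k) : Matrix (Fin n) (Fin n) K').det = 0 :=
          Matrix.det_zero_of_row_eq hne' (by
            change Φ (D i) = Φ (D j)
            rw [hij])
        change Algebra.trace L K' ((Matrix.of fun k => Φ (D k)).det * g0) = 0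
        rw [h1, zero_mul, map_zero]
    refine ⟨η, ?_, ?_⟩
    · intro P hP D hD
      obtain ⟨z, E, i0, hloc⟩ := exists_loc hw hP
      choose EP hEP using fun i : Fin w =>
        exists_lift (k := ℂ) (K := L) (L := K') hw (E i)
      have h1 : D = fun i => ∑ k, D i (z k) • E k := by
        funext i
        exact (Pool.Agent.W73.PG.PULL.expand z hloc.bas E hloc.dual (D i)).symm
      have h2 : η D = ∑ κ : Fin n → Fin w, (∏ i, D i (z (κ i))) * η fun i => E (κ i) := by
        conv_lhs => rw [h1]
        change η.toMultilinearMap _ = _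
        rw [MultilinearMap.map_sum]
        refine Finset.sum_congr rfl fun κ _ => ?_
        rw [MultilinearMap.map_smul_univ]
        rfl
      change Ge P 0 (η D)
      rw [h2]
      refine Ge.sum _ _ fun κ _ => ?_
      have h3 : Ge P 0 (∏ i, D i (z (κ i))) := by
        have h4 := Ge.prod (P := P) Finset.univ (fun i => D i (z (κ i))) (fun _ => 0)
          fun i _ => hD i _ (hloc.reg (κ i))
        simpa using h4
      have h4 : Ge P 0 (η fun i => E (κ i)) := by
        by_cases hκ : Function.Injective κ
        · rw [hη]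
          refine Pool.Agent.Y692.NT.trace_reg P _ fun Q e hQe => ?_
          have h5 : (Matrix.of fun i => Φ (E (κ i)) : Matrix (Fin n) (Fin n) K') =
              Matrix.of fun i j => EP (κ i) (algebraMap K K' (y j)) := by
            ext i j
            exact hΦl (E (κ i)) (EP (κ i)) (hEP (κ i)) j
          rw [h5, hg0]
          exact mild_det hp hn hw hy hε (ω := fun D => b * ω₀ D) hb hQe hP hloc hEP κ hκ
        · left
          unfold Function.Injective at hκ
          push Not at hκ
          obtain ⟨i, j, hij, hne'⟩ := hκ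
          exact η.map_eq_zero_of_eq _ (by rw [hij]) hne'
      simpa using h3.mul h4
    · rw [hη]
      have h5 : (Matrix.of fun i => Φ (E0 (κ₀ i)) : Matrix (Fin n) (Fin n) K') =
          Matrix.of fun i j => E' (κ₀ i) (algebraMap K K' (y j)) := by
        ext i j
        exact hΦl (E0 (κ₀ i)) (E' (κ₀ i)) (hE' (κ₀ i)) j
      rw [h5, hg0, (algebraMap K K').map_mul]
      congr 1
      ring

end Pool.Agent.N401.GP
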